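import Pool.Agent.Q137.V.Facts

/-! # Project V, job DLE: the discriminant of the field in terms of the height -/

set_option autoImplicit false

namespace Q137.V

open Polynomial Q273.V Module NumberField

/-- the upper part of a polynomial -/
noncomputable def up (f : ℤ[X]) (s m : ℕ) : ℤ[X] :=
  ∑ j ∈ Finset.range (s + 1 - m), C (f.coeff (m + j)) * X ^ j

/-- the lower part of a polynomial -/
noncomputable def lo (f : ℤ[X]) (m : ℕ) : ℤ[X] := ∑ j ∈ Finset.range m, C (f.coeff j) * X ^ j

theorem split_up (f : ℤ[X]) {s m : ℕ} (hs : f.natDegree = s) (hm : m ≤ s + 1) :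
    f = lo f m + X ^ m * up f s m := by
  have h1 := f.as_sum_range_C_mul_X_pow
  have h2 : f.natDegree + 1 = m + (s + 1 - m) := by omega
  rw [h2, Finset.sum_range_add] at h1
  conv_lhs => rw [h1]
  unfold lo up
  rw [Finset.mul_sum]
  congr 1
  refine Finset.sum_congr rfl fun j _ => ?_
  rw [pow_add]
  ring

theorem up_deg (f : ℤ[X]) (s m : ℕ) : (up f s m).natDegree ≤ s - m := by
  unfold up
  refine natDegree_sum_le_of_forall_le _ _ fun j hj => (natDegree_C_mul_X_pow_le _ _).trans ?_
  rw [Finset.mem_range] at hj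
  omega

theorem lo_deg (f : ℤ[X]) (m : ℕ) : (lo f m).natDegree ≤ m - 1 := by
  unfold lo
  refine natDegree_sum_le_of_forall_le _ _ fun j hj => (natDegree_C_mul_X_pow_le _ _).trans ?_
  rw [Finset.mem_range] at hj
  omega

theorem up_coeff (f : ℤ[X]) {s m : ℕ} (hm : m ≤ s) : (up f s m).coeff (s - m) = f.coeff s := by
  unfold up
  rw [finsetSum_coeff, Finset.sum_eq_single (s - m)]
  · rw [coeff_C_mul_X_pow, if_pos rfl]
    congr 1
    omega
  · intro b _ hb
    rw [coeff_C_mul_X_pow, if_neg (Ne.symm hb)]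
  · intro h
    exfalso
    apply h
    rw [Finset.mem_range]
    omega

theorem mem_span {K : Type} [Field K] {x : K} {s : ℕ} (g : ℤ[X]) (hg : g.natDegree < s) :
    aeval x g ∈ Submodule.span ℤ (Set.range fun i : Fin s => x ^ (i : ℕ)) := by
  rw [aeval_eq_sum_range' hg]
  refine Submodule.sum_mem _ fun i hi => Submodule.smul_mem _ _
    (Submodule.subset_span ⟨⟨i, Finset.mem_range.1 hi⟩, rfl⟩)

theorem up_int {K : Type} [Field K] {x : K} {f : ℤ[X]} {s : ℕ} (hs1 : 1 ≤ s)
    (hs : f.natDegree = s) (hx : aeval x f = 0) (m : ℕ) (hm : m ≤ s) :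
    IsIntegral ℤ (aeval x (up f s m)) := by
  set N : Submodule ℤ K := Submodule.span ℤ (Set.range fun i : Fin s => x ^ (i : ℕ)) with hN
  have h1 : (1 : K) ∈ N := Submodule.subset_span ⟨⟨0, hs1⟩, by simp⟩
  refine isIntegral_of_smul_mem_submodule N ?_ ?_ _ ?_
  · intro h
    rw [h, Submodule.mem_bot] at h1
    exact one_ne_zero h1
  · exact Submodule.fg_span (Set.finite_range _)
  · intro n hn
    induction hn using Submodule.span_induction with
    | mem y hy =>
      obtain ⟨i, rfl⟩ := hy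
      have hi2 := i.2
      show aeval x (up f s m) * x ^ (i : ℕ) ∈ N
      by_cases hi : (i : ℕ) < m
      · have e : aeval x (up f s m) * x ^ (i : ℕ) = aeval x (up f s m * X ^ (i : ℕ)) := by simp
        rw [e]
        apply mem_span
        refine lt_of_le_of_lt natDegree_mul_le ?_
        have := up_deg f s m
        rw [natDegree_X_pow]
        omega
      · have e : aeval x (up f s m) * x ^ (i : ℕ) = aeval x (-(lo f m) * X ^ ((i : ℕ) - m)) := by
          have e1 := split_up f (m := m) hs (by omega)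
          have e2 : aeval x (lo f m) + x ^ m * aeval x (up f s m) = 0 := by
            rw [← hx]
            conv_rhs => rw [e1]
            simp
          have e3 : x ^ (i : ℕ) = x ^ m * x ^ ((i : ℕ) - m) := by
            rw [← pow_add]
            congr 1
            omega
          rw [e3]
          simp only [map_mul, map_neg, map_pow, aeval_X]
          linear_combination x ^ ((i : ℕ) - m) * e2
        rw [e]
        apply mem_span
        refine lt_of_le_of_lt natDegree_mul_le ?_
        have := lo_deg f m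
        rw [natDegree_X_pow, natDegree_neg]
        rcases Nat.eq_zero_or_pos m with h0 | h0
        · omega
        · omega
    | zero => simp
    | add a b _ _ ha hb =>
      rw [smul_add]
      exact N.add_mem ha hb
    | smul c a _ ha =>
      rw [smul_comm]
      exact N.smul_mem c ha

theorem conj {K : Type} [Field K] [NumberField K] {s : ℕ} (hs1 : 1 ≤ s) (hK : finrank ℚ K = s)
    {x : K} {f : ℤ[X]} (hf : IsMin s f x) (e : Fin s ≃ (K →ₐ[ℚ] ℂ)) :
    Function.Injective (fun i => e i x) ∧ M f = lc f * ∏ i, max 1 ‖e i x‖ := by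
  obtain ⟨hirr, hdeg, hx⟩ := hf
  have hd : f.natDegree ≠ 0 := by omega
  have h1 : f.IsPrimitive := hirr.isPrimitive hd
  have h2 : Irreducible (f.map (Int.castRingHom ℚ)) :=
    (IsPrimitive.Int.irreducible_iff_irreducible_map_cast h1).1 hirr
  have h3 : aeval x (f.map (Int.castRingHom ℚ)) = 0 := by
    have : aeval x (f.map (algebraMap ℤ ℚ)) = aeval x f := aeval_map_algebraMap ℚ x f
    rw [← hx, ← this]
    rfl
  have h4 := minpoly.eq_of_irreducible h2 h3
  have h5 : (minpoly ℚ x).natDegree = finrank ℚ K := by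
    rw [← h4, natDegree_mul_C (inv_ne_zero (leadingCoeff_ne_zero.2 h2.ne_zero)), hK, ← hdeg]
    exact natDegree_map_eq_of_injective (RingHom.injective_int (Int.castRingHom ℚ)) f
  have h6 := (Field.primitive_element_iff_minpoly_natDegree_eq ℚ x).2 h5
  have h7 := (Field.primitive_element_iff_algHom_eq_of_eval' ℚ ℂ (fun _ => IsAlgClosed.splits _) x).1 h6
  have hinj : Function.Injective (fun i => e i x) := fun i j hij => e.injective (h7 hij)
  refine ⟨hinj, ?_⟩
  have h8 : (Finset.univ.val.map fun i => e i x) = (f.map (Int.castRingHom ℂ)).roots := by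
    apply Multiset.eq_of_le_of_card_le
    · rw [Multiset.le_iff_subset]
      · intro w hw
        rw [Multiset.mem_map] at hw
        obtain ⟨i, -, rfl⟩ := hw
        rw [mem_rts hirr.ne_zero]
        have := congrArg (e i) hx
        rw [map_zero] at this
        rw [← this]
        have h9 := aeval_algHom_apply ((e i).restrictScalars ℤ) x f
        exact h9
      · exact Multiset.Nodup.map hinj Finset.univ.nodup
    · rw [roots_card, hdeg, Multiset.card_map]
      simp
  unfold M lc
  rw [mahlerMeasure_eq_leadingCoeff_mul_prod_roots, lead_map, ← h8, Multiset.map_map, Complex.norm_intCast]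
  rfl

/-- the polynomials of the basis -/
noncomputable def pl (f : ℤ[X]) (s : ℕ) (i : Fin s) : ℤ[X] :=
  if (i : ℕ) = 0 then 1 else up f s (s - i)

theorem pl_deg (f : ℤ[X]) (s : ℕ) (i : Fin s) : (pl f s i).natDegree ≤ i := by
  unfold pl
  split_ifs with h
  · rw [natDegree_one]
    exact Nat.zero_le _
  · refine (up_deg f s _).trans ?_
    omega

theorem pl_coeff (f : ℤ[X]) (s : ℕ) (i : Fin s) :
    (pl f s i).coeff i = if (i : ℕ) = 0 then 1 else f.coeff s := by
  unfold pl
  split_ifs with h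
  · rw [h, coeff_one_zero]
  · have := up_coeff f (s := s) (m := s - i) (by omega)
    have e : s - (s - (i : ℕ)) = i := by omega
    rw [e] at this
    exact this

theorem pl_int {K : Type} [Field K] {x : K} {f : ℤ[X]} {s : ℕ} (hs1 : 1 ≤ s)
    (hs : f.natDegree = s) (hx : aeval x f = 0) (i : Fin s) :
    IsIntegral ℤ (aeval x (pl f s i)) := by
  unfold pl
  split_ifs with h
  · rw [map_one]
    exact isIntegral_one
  · exact up_int hs1 hs hx _ (by omega)

theorem disc_le {K : Type} [Field K] [NumberField K] {s : ℕ} (hs1 : 1 ≤ s) (hK : finrank ℚ K = s)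
    {x : K} {f : ℤ[X]} (hf : IsMin s f x) :
    |(NumberField.discr K : ℝ)| ≤ ((s.factorial : ℕ) : ℝ) ^ 2 * M f ^ (2 * s - 2) := by
  have e : Fin s ≃ (K →ₐ[ℚ] ℂ) := by
    refine (Fintype.equivFinOfCardEq ?_).symm
    rw [AlgHom.card, hK]
  obtain ⟨hinj, hM⟩ := conj hs1 hK hf e
  obtain ⟨hirr, hdeg, hx⟩ := hf
  set v : Fin s → ℂ := fun i => e i x with hv
  set b : Fin s → K := fun i => aeval x (pl f s i) with hb
  set bb : Fin s → 𝓞 K := fun i => ⟨b i, pl_int hs1 hdeg hx i⟩ with hbb
  have hfa : f.coeff s = f.leadingCoeff := by rw [leadingCoeff, hdeg]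
  have ha0 : f.leadingCoeff ≠ 0 := leadingCoeff_ne_zero.2 hirr.ne_zero
  -- the determinant
  set D : Matrix (Fin s) (Fin s) ℂ := Algebra.embeddingsMatrixReindex ℚ ℂ b e with hD
  have hD1 : ((Algebra.discr ℚ b : ℚ) : ℂ) = D.det ^ 2 := by
    have := Algebra.discr_eq_det_embeddingsMatrixReindex_pow_two ℚ ℂ b e
    simpa using this
  set c : Fin s → ℂ := fun i => if (i : ℕ) = 0 then 1 else (f.leadingCoeff : ℂ) with hc
  have hc0 : ∀ i, c i ≠ 0 := by
    intro i
    rw [hc]
    show (if (i : ℕ) = 0 then (1 : ℂ) else (f.leadingCoeff : ℂ)) ≠ 0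
    split_ifs
    · exact one_ne_zero
    · exact_mod_cast ha0
  set q : Fin s → ℂ[X] := fun i => C (c i)⁻¹ * (pl f s i).map (Int.castRingHom ℂ) with hq
  have hcoef : ∀ i, ((pl f s i).map (Int.castRingHom ℂ)).coeff i = c i := by
    intro i
    rw [coeff_map, pl_coeff, hc, hfa]
    show Int.castRingHom ℂ (if (i : ℕ) = 0 then 1 else f.leadingCoeff) =
      if (i : ℕ) = 0 then (1 : ℂ) else (f.leadingCoeff : ℂ)
    split_ifs <;> simp
  have hqc : ∀ i, (q i).coeff i = 1 := by
    intro i
    rw [hq]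
    show (C (c i)⁻¹ * (pl f s i).map (Int.castRingHom ℂ)).coeff i = 1
    rw [coeff_C_mul, hcoef, inv_mul_cancel₀ (hc0 i)]
  have hqle : ∀ i, (q i).natDegree ≤ i := by
    intro i
    rw [hq]
    exact (natDegree_C_mul_le _ _).trans (natDegree_map_le.trans (pl_deg f s i))
  have hqd : ∀ i, (q i).natDegree = i := by
    intro i
    apply le_antisymm (hqle i)
    apply le_natDegree_of_ne_zero
    rw [hqc]
    exact one_ne_zero
  have hqm : ∀ i, (q i).Monic := by
    intro i
    rw [Monic, leadingCoeff, hqd, hqc]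
  have hvan := Matrix.det_eval_matrixOfPolynomials_eq_det_vandermonde v q hqd hqm
  have hDD : D.det = (∏ i, c i) * (Matrix.vandermonde v).det := by
    rw [hvan, ← Matrix.det_mul_row, ← Matrix.det_transpose]
    congr 1
    ext i j
    rw [Matrix.transpose_apply, Matrix.of_apply, Matrix.of_apply, hD]
    show e i (b j) = c j * (q j).eval (v i)
    rw [hq]
    show e i (aeval x (pl f s j)) = c j * (C (c j)⁻¹ * (pl f s j).map (Int.castRingHom ℂ)).eval (v i)
    rw [eval_mul, eval_C, ← mul_assoc, mul_inv_cancel₀ (hc0 j), one_mul, ← aeval_map]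
    exact (aeval_algHom_apply ((e i).restrictScalars ℤ) x (pl f s j)).symm
  have hDne : D.det ≠ 0 := by
    rw [hDD]
    exact mul_ne_zero (Finset.prod_ne_zero_iff.2 fun i _ => hc0 i)
      (Matrix.det_vandermonde_ne_zero_iff.2 hinj)
  -- the product of the leading coefficients
  have hcn : ‖∏ i, c i‖ = lc f ^ (s - 1) := by
    obtain ⟨k, rfl⟩ : ∃ k, s = k + 1 := ⟨s - 1, by omega⟩
    rw [norm_prod, Fin.prod_univ_succ]
    have e1 : ‖c 0‖ = 1 := by
      rw [hc]
      simp
    have e2 : ∀ i : Fin k, ‖c i.succ‖ = lc f := by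
      intro i
      rw [hc]
      show ‖(if ((i.succ : Fin (k + 1)) : ℕ) = 0 then (1 : ℂ) else (f.leadingCoeff : ℂ))‖ = lc f
      rw [if_neg (by rw [Fin.val_succ]; omega), Complex.norm_intCast]
      rfl
    rw [e1, one_mul, Finset.prod_congr rfl fun i _ => e2 i, Finset.prod_const, Finset.card_univ,
      Fintype.card_fin]
    rfl
  -- the Vandermonde determinant
  have hvn : ‖(Matrix.vandermonde v).det‖ ≤ (s.factorial : ℕ) * (∏ i, max 1 ‖v i‖) ^ (s - 1) := by
    set mm : Fin s → ℝ := fun i => max 1 ‖v i‖ with hmm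
    have hm1 : ∀ i, 1 ≤ mm i := fun i => le_max_left _ _
    set W : Matrix (Fin s) (Fin s) ℂ :=
      Matrix.of fun i j => ((mm i ^ (s - 1) : ℝ) : ℂ)⁻¹ * v i ^ (j : ℕ) with hW
    have e1 : Matrix.vandermonde v = Matrix.of fun i j => ((mm i ^ (s - 1) : ℝ) : ℂ) * W i j := by
      ext i j
      rw [Matrix.vandermonde_apply, Matrix.of_apply, hW, Matrix.of_apply, ← mul_assoc,
        mul_inv_cancel₀, one_mul]
      have : (0 : ℝ) < mm i ^ (s - 1) := pow_pos (lt_of_lt_of_le one_pos (hm1 i)) _
      exact_mod_cast this.ne'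
    have e2 : ‖W.det‖ ≤ (s.factorial : ℕ) := by
      have e3 := Matrix.det_le (A := W) (abv := IsAbsoluteValue.toAbsoluteValue (norm : ℂ → ℝ)) (x := 1)
        (fun i j => by
          show ‖W i j‖ ≤ 1
          rw [hW, Matrix.of_apply, norm_mul, norm_inv, Complex.norm_real, norm_pow, Real.norm_eq_abs,
            abs_of_pos (lt_of_lt_of_le one_pos (hm1 i)), norm_pow]
          rw [inv_mul_le_one₀ (pow_pos (lt_of_lt_of_le one_pos (hm1 i)) _)]
          calc ‖v i‖ ^ (j : ℕ) ≤ mm i ^ (j : ℕ) :=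
                pow_le_pow_left₀ (norm_nonneg _) (le_max_right _ _) _
            _ ≤ mm i ^ (s - 1) := pow_le_pow_right₀ (hm1 i) (by omega))
      rw [one_pow, nsmul_eq_mul, mul_one, Fintype.card_fin] at e3
      exact e3
    rw [e1, Matrix.det_mul_column, norm_mul, mul_comm]
    have e4 : ‖∏ i, ((mm i ^ (s - 1) : ℝ) : ℂ)‖ = (∏ i, mm i) ^ (s - 1) := by
      rw [norm_prod, ← Finset.prod_pow]
      refine Finset.prod_congr rfl fun i _ => ?_
      rw [Complex.norm_real, Real.norm_eq_abs, abs_of_pos (pow_pos (lt_of_lt_of_le one_pos (hm1 i)) _)]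
    rw [e4]
    exact mul_le_mul_of_nonneg_right e2 (pow_nonneg (Finset.prod_nonneg fun i _ =>
      (zero_le_one.trans (hm1 i))) _)
  have hDle : ‖D.det‖ ^ 2 ≤ ((s.factorial : ℕ) : ℝ) ^ 2 * M f ^ (2 * s - 2) := by
    have e1 : ‖D.det‖ ≤ (s.factorial : ℕ) * M f ^ (s - 1) := by
      rw [hDD, norm_mul, hcn, hM, mul_pow]
      have hl : 0 ≤ lc f ^ (s - 1) := pow_nonneg (abs_nonneg _) _
      calc lc f ^ (s - 1) * ‖(Matrix.vandermonde v).det‖ ≤
            lc f ^ (s - 1) * ((s.factorial : ℕ) * (∏ i, max 1 ‖v i‖) ^ (s - 1)) :=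
            mul_le_mul_of_nonneg_left hvn hl
        _ = _ := by ring
    have e2 := pow_le_pow_left₀ (norm_nonneg _) e1 2
    have e3 : 2 * s - 2 = (s - 1) * 2 := by omega
    rw [e3, pow_mul, ← mul_pow]
    exact e2
  -- the index
  have hfr : finrank ℤ (𝓞 K) = s := by rw [RingOfIntegers.rank]; exact hK
  set B : Basis (Fin s) ℤ (𝓞 K) := finBasisOfFinrankEq ℤ (𝓞 K) hfr with hB
  have hdB : Algebra.discr ℤ B = NumberField.discr K := NumberField.discr_eq_discr K B
  have hidx : Algebra.discr ℤ bb = (B.toMatrix bb).det ^ 2 * NumberField.discr K := by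
    rw [← hdB, ← Algebra.discr_of_matrix_vecMul]
    congr 1
    exact (B.toMatrix_map_vecMul bb).symm
  have hcast : ((Algebra.discr ℤ bb : ℤ) : ℚ) = Algebra.discr ℚ b := by
    rw [Algebra.discr_def, Algebra.discr_def]
    have e1 := RingHom.map_det (Int.castRingHom ℚ) (Algebra.traceMatrix ℤ bb)
    rw [show (((Algebra.traceMatrix ℤ bb).det : ℤ) : ℚ) =
      Int.castRingHom ℚ (Algebra.traceMatrix ℤ bb).det from rfl, e1]
    congr 1
    ext i j
    rw [RingHom.mapMatrix_apply, Matrix.map_apply, Algebra.traceMatrix_apply, Algebra.traceMatrix_apply,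
      Algebra.traceForm_apply, Algebra.traceForm_apply]
    show ((Algebra.trace ℤ (𝓞 K) (bb i * bb j) : ℤ) : ℚ) = _
    rw [Algebra.coe_trace_int]
    rfl
  have hne : Algebra.discr ℤ bb ≠ 0 := by
    intro h
    rw [h, Int.cast_zero] at hcast
    rw [← hcast, Rat.cast_zero] at hD1
    exact pow_ne_zero 2 hDne hD1.symm
  have hle : |NumberField.discr K| ≤ |Algebra.discr ℤ bb| := by
    rw [hidx, abs_mul]
    have e1 : 1 ≤ |(B.toMatrix bb).det ^ 2| := by
      apply Int.one_le_abs
      intro h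
      rw [hidx, h, zero_mul] at hne
      exact hne rfl
    nlinarith [abs_nonneg (NumberField.discr K)]
  have hval : |(Algebra.discr ℤ bb : ℝ)| = ‖D.det‖ ^ 2 := by
    rw [← norm_pow, ← hD1, ← hcast]
    rw [show (((Algebra.discr ℤ bb : ℤ) : ℚ) : ℂ) = ((Algebra.discr ℤ bb : ℤ) : ℂ) from by
      push_cast; rfl, Complex.norm_intCast]
  calc |(NumberField.discr K : ℝ)| ≤ |(Algebra.discr ℤ bb : ℝ)| := by exact_mod_cast hle
    _ = ‖D.det‖ ^ 2 := hval
    _ ≤ _ := hDle

theorem dle : S_DLE := by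
  intro s hs
  refine ⟨((s.factorial : ℕ) : ℝ) ^ 2, by positivity, fun f z hf => ?_⟩
  obtain ⟨hirr, hdeg, hz⟩ := hf
  have hd : f.natDegree ≠ 0 := by omega
  have h1 : f.IsPrimitive := hirr.isPrimitive hd
  have h2 : Irreducible (f.map (Int.castRingHom ℚ)) :=
    (IsPrimitive.Int.irreducible_iff_irreducible_map_cast h1).1 hirr
  have h3 : aeval z (f.map (Int.castRingHom ℚ)) = 0 := by
    have : aeval z (f.map (algebraMap ℤ ℚ)) = aeval z f := aeval_map_algebraMap ℚ z f
    rw [← hz, ← this]
    rfl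
  have hint : IsIntegral ℚ z := by
    have h0 : IsAlgebraic ℚ z := ⟨_, h2.ne_zero, h3⟩
    exact h0.isIntegral
  have h4 := minpoly.eq_of_irreducible h2 h3
  have h5 : (minpoly ℚ z).natDegree = s := by
    rw [← h4, natDegree_mul_C (inv_ne_zero (leadingCoeff_ne_zero.2 h2.ne_zero)), ← hdeg]
    exact natDegree_map_eq_of_injective (RingHom.injective_int (Int.castRingHom ℚ)) f
  have hfin : FiniteDimensional ℚ (IntermediateField.adjoin ℚ ({z} : Set ℂ)) :=
    IntermediateField.adjoin.finiteDimensional hint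
  have hNF : NumberField (IntermediateField.adjoin ℚ ({z} : Set ℂ)) := ⟨⟩
  have hrank : finrank ℚ (IntermediateField.adjoin ℚ ({z} : Set ℂ)) = s := by
    rw [IntermediateField.adjoin.finrank hint, h5]
  have hds : dsc z = |(NumberField.discr (IntermediateField.adjoin ℚ ({z} : Set ℂ)) : ℝ)| := by
    unfold dsc
    rw [dif_pos hNF]
  rw [hds]
  refine ⟨?_, ?_⟩
  · have := Int.one_le_abs (NumberField.discr_ne_zero (IntermediateField.adjoin ℚ ({z} : Set ℂ)))
    exact_mod_cast this
  · refine disc_le hs hrank (x := IntermediateField.AdjoinSimple.gen ℚ z) ⟨hirr, hdeg, ?_⟩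
    apply Subtype.ext
    have h6 := aeval_algHom_apply ((IntermediateField.val (IntermediateField.adjoin ℚ ({z} : Set ℂ))).restrictScalars ℤ)
      (IntermediateField.AdjoinSimple.gen ℚ z) f
    rw [ZeroMemClass.coe_zero, ← hz]
    exact h6.symm

end Q137.V
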