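import Pool.Agent.Q273.V.Stm

/-! # Project V: minimal polynomials over the complex numbers -/

set_option autoImplicit false

namespace Q137.V

open Polynomial MeasureTheory Q273.V

theorem roots_nodup {f : ℤ[X]} (hf : Irreducible f) (hd : f.natDegree ≠ 0) :
    (f.map (Int.castRingHom ℂ)).roots.Nodup := by
  have h1 : f.IsPrimitive := hf.isPrimitive hd
  have h2 : Irreducible (f.map (Int.castRingHom ℚ)) :=
    (IsPrimitive.Int.irreducible_iff_irreducible_map_cast h1).1 hf
  have h3 : (f.map (Int.castRingHom ℚ)).Separable := h2.separable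
  have h4 := h3.map (f := algebraMap ℚ ℂ)
  have h5 : (f.map (Int.castRingHom ℚ)).map (algebraMap ℚ ℂ) = f.map (Int.castRingHom ℂ) := by
    rw [Polynomial.map_map]
    congr 1
  rw [h5] at h4
  exact nodup_roots h4

theorem map_ne {f : ℤ[X]} (hf : f ≠ 0) : f.map (Int.castRingHom ℂ) ≠ 0 := by
  rw [Ne, Polynomial.map_eq_zero_iff (RingHom.injective_int (Int.castRingHom ℂ))]
  exact hf

theorem deg_map (f : ℤ[X]) : (f.map (Int.castRingHom ℂ)).natDegree = f.natDegree :=
  natDegree_map_eq_of_injective (RingHom.injective_int (Int.castRingHom ℂ)) f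

theorem lead_map (f : ℤ[X]) : (f.map (Int.castRingHom ℂ)).leadingCoeff = (f.leadingCoeff : ℂ) := by
  rw [leadingCoeff_map_of_injective (RingHom.injective_int (Int.castRingHom ℂ))]
  simp

theorem roots_card (f : ℤ[X]) : (f.map (Int.castRingHom ℂ)).roots.card = f.natDegree := by
  rw [← deg_map, (IsAlgClosed.splits (f.map (Int.castRingHom ℂ))).natDegree_eq_card_roots]

theorem aeval_map (f : ℤ[X]) (w : ℂ) : aeval w f = (f.map (Int.castRingHom ℂ)).eval w := by
  rw [eval_map, aeval_def]
  rfl

theorem mem_rts {f : ℤ[X]} (hf : f ≠ 0) {w : ℂ} :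
    w ∈ (f.map (Int.castRingHom ℂ)).roots ↔ aeval w f = 0 := by
  rw [mem_roots (map_ne hf), IsRoot.def, aeval_map]

open scoped Classical in
/-- the value at a point as a product over the roots -/
theorem val_prod {f : ℤ[X]} (hf : Irreducible f) (hd : f.natDegree ≠ 0) (z : ℂ) :
    aeval z f = (f.leadingCoeff : ℂ) * ∏ w ∈ (f.map (Int.castRingHom ℂ)).roots.toFinset, (z - w) := by
  rw [aeval_map, (IsAlgClosed.splits (f.map (Int.castRingHom ℂ))).eval_eq_prod_roots, lead_map]
  congr 1
  rw [Finset.prod, Multiset.toFinset_val, Multiset.dedup_eq_self.2 (roots_nodup hf hd)]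

open scoped Classical in
/-- the derivative at a root -/
theorem dv_prod {f : ℤ[X]} (hf : Irreducible f) (hd : f.natDegree ≠ 0) {w : ℂ}
    (hw : w ∈ (f.map (Int.castRingHom ℂ)).roots.toFinset) :
    dv f w = lc f * ∏ w' ∈ (f.map (Int.castRingHom ℂ)).roots.toFinset.erase w, ‖w - w'‖ := by
  set S := (f.map (Int.castRingHom ℂ)).roots.toFinset with hS
  have h1 : f.map (Int.castRingHom ℂ) = (X - C w) *
      (C (f.leadingCoeff : ℂ) * ∏ w' ∈ S.erase w, (X - C w')) := by
    conv_lhs => rw [(IsAlgClosed.splits (f.map (Int.castRingHom ℂ))).eq_prod_roots, lead_map]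
    have h2 : ((f.map (Int.castRingHom ℂ)).roots.map (X - C ·)).prod = ∏ w' ∈ S, (X - C w') := by
      rw [Finset.prod, hS, Multiset.toFinset_val, Multiset.dedup_eq_self.2 (roots_nodup hf hd)]
    rw [h2, ← Finset.mul_prod_erase S _ hw]
    ring
  have h3 : aeval w (derivative f) = (derivative (f.map (Int.castRingHom ℂ))).eval w := by
    rw [aeval_map, derivative_map]
  unfold dv lc
  rw [h3, h1, derivative_mul, eval_add, eval_mul, eval_mul]
  simp only [derivative_sub, derivative_X, derivative_C, sub_zero, eval_one, one_mul, eval_sub, eval_X,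
    eval_C, sub_self, zero_mul, add_zero, eval_mul, Polynomial.eval_prod]
  rw [norm_mul, norm_prod]
  congr 1
  rw [Complex.norm_intCast]

end Q137.V
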