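import Pool.Agent.Q137.V.Facts

/-! # Project V, job FLDG: the number of fields of degree `s` -/

set_option autoImplicit false

namespace Q137.V

open Polynomial Q273.V Module NumberField IntermediateField

/-- the second coefficient after a shift -/
theorem shift_coeff {p : ℤ[X]} {n : ℕ} (hp : p.Monic) (hd : p.natDegree = n + 1) (m : ℤ) :
    (p.comp (X + C m)).coeff n = p.coeff n + (n + 1) * m := by
  rw [← taylor_apply, taylor_coeff]
  have h1 : (hasseDeriv n p).natDegree < 2 := by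
    have := natDegree_hasseDeriv_le p n
    omega
  rw [eval_eq_sum_range' h1, Finset.sum_range_succ, Finset.sum_range_one, hasseDeriv_coeff,
    hasseDeriv_coeff, zero_add, Nat.choose_self, add_comm 1 n, Nat.choose_succ_self_right]
  have h3 : p.coeff (n + 1) = 1 := by rw [← hd]; exact hp.coeff_natDegree
  rw [h3]
  push_cast
  ring

theorem inst_irrel {K : Type} [Field K] (i₁ i₂ : Algebra ℚ K) (x : K)
    (h : @IntermediateField.adjoin ℚ _ K _ i₁ {x} = ⊤) : @IntermediateField.adjoin ℚ _ K _ i₂ {x} = ⊤ := by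
  obtain rfl : i₁ = i₂ := Subsingleton.elim _ _
  exact h

/-- the data of one field: a polynomial and a root -/
theorem datum {n : ℕ} {R : ℝ} (hR : 1 ≤ R) (K : IntermediateField ℚ ℂ) (hNF : NumberField K)
    (hK : finrank ℚ K = n + 1) (x : K) (hx : IsIntegral ℤ x) (hgen : adjoin ℚ {x} = ⊤)
    (hb : ∀ σ : K →+* ℂ, ‖σ x‖ ≤ R) : ∃ (q : ℤ[X]) (y : ℂ), q.Monic ∧ q.natDegree = n + 1 ∧
      aeval y q = 0 ∧ adjoin ℚ {y} = K ∧ 0 ≤ q.coeff n ∧ q.coeff n < n + 1 ∧
      ∀ j, |(q.coeff j : ℝ)| ≤ (3 * R) ^ (n + 1 - j) * (n + 1).choose j := by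
  set p := minpoly ℤ x with hp
  have hpm : p.Monic := minpoly.monic hx
  have hpQ : minpoly ℚ x = p.map (algebraMap ℤ ℚ) := minpoly.isIntegrallyClosed_eq_field_fractions' ℚ hx
  have hpd : p.natDegree = n + 1 := by
    have h1 := (Field.primitive_element_iff_minpoly_natDegree_eq ℚ x).1 hgen
    rw [hpQ, hpm.natDegree_map, hK] at h1
    exact h1
  have hroots : ∀ w ∈ (p.map (Int.castRingHom ℂ)).roots, ‖w‖ ≤ R := by
    intro w hw
    rw [mem_rts hpm.ne_zero] at hw
    have h1 : w ∈ (minpoly ℚ x).rootSet ℂ := by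
      rw [mem_rootSet]
      refine ⟨minpoly.ne_zero (hx.tower_top), ?_⟩
      rw [hpQ, aeval_map_algebraMap, hw]
    rw [← NumberField.Embeddings.range_eval_eq_rootSet_minpoly K ℂ x] at h1
    obtain ⟨φ, rfl⟩ := h1
    exact hb φ
  -- coefficient bounds
  have hcb : ∀ (g : ℤ[X]) (B : ℝ), g.Monic → g.natDegree = n + 1 →
      (∀ w ∈ (g.map (Int.castRingHom ℂ)).roots, ‖w‖ ≤ B) → ∀ j,
      |(g.coeff j : ℝ)| ≤ B ^ (n + 1 - j) * (n + 1).choose j := by
    intro g B hg hgd hgr j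
    have h1 := coeff_le_of_roots_le (p := g.map (Int.castRingHom ℂ)) (f := RingHom.id ℂ) (B := B) j
      (hg.map _) (IsAlgClosed.splits _) (by rw [Polynomial.map_id]; exact hgr)
    rw [Polynomial.map_id, hg.natDegree_map, hgd, coeff_map] at h1
    have h2 : ‖(Int.castRingHom ℂ) (g.coeff j)‖ = |(g.coeff j : ℝ)| := by
      rw [eq_intCast, Complex.norm_intCast]
    rwa [h2] at h1
  have ha := hcb p R hpm hpd hroots n
  have e1 : n + 1 - n = 1 := by omega
  rw [e1, pow_one, Nat.choose_succ_self_right] at ha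
  set a : ℤ := p.coeff n with hadef
  set m : ℤ := -(a / ((n : ℤ) + 1)) with hm
  have hn1 : (0 : ℤ) < (n : ℤ) + 1 := by positivity
  have hmod : a + ((n : ℤ) + 1) * m = a % ((n : ℤ) + 1) := by
    have := Int.emod_add_mul_ediv a ((n : ℤ) + 1)
    rw [hm]
    linarith
  have hmR : |(m : ℝ)| ≤ 2 * R := by
    have h1 : ((n : ℝ) + 1) * m = ((a % ((n : ℤ) + 1) : ℤ) : ℝ) - a := by
      rw [← hmod]
      push_cast
      ring
    have h2 : (0 : ℝ) ≤ ((a % ((n : ℤ) + 1) : ℤ) : ℝ) := by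
      exact_mod_cast Int.emod_nonneg a hn1.ne'
    have h3 : ((a % ((n : ℤ) + 1) : ℤ) : ℝ) ≤ (n : ℝ) + 1 := by
      have := (Int.emod_lt_of_pos a hn1).le
      exact_mod_cast this
    have h4 : ((n : ℝ) + 1) * |(m : ℝ)| ≤ ((n : ℝ) + 1) * (R + 1) := by
      have h5 : ((n : ℝ) + 1) * |(m : ℝ)| = |((n : ℝ) + 1) * m| := by
        rw [abs_mul, abs_of_pos (show (0 : ℝ) < (n : ℝ) + 1 by positivity)]
      rw [h5, h1, abs_le]
      push_cast at ha
      rw [abs_le] at ha
      constructor <;> nlinarith [ha.1, ha.2]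
    have h6 := le_of_mul_le_mul_left h4 (show (0 : ℝ) < (n : ℝ) + 1 by positivity)
    linarith
  set q : ℤ[X] := p.comp (X + C m) with hq
  have hqm : q.Monic := hpm.comp_X_add_C m
  have hqd : q.natDegree = n + 1 := by
    rw [hq, natDegree_comp, natDegree_X_add_C, mul_one, hpd]
  have hqc : q.coeff n = a % ((n : ℤ) + 1) := by
    rw [hq, shift_coeff hpm hpd, ← hmod]
  have hqev : ∀ w : ℂ, aeval w q = aeval (w + m) p := by
    intro w
    rw [hq, aeval_comp]
    simp
  refine ⟨q, (x : ℂ) - m, hqm, hqd, ?_, ?_, ?_, ?_, ?_⟩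
  · rw [hqev, sub_add_cancel]
    have h1 := aeval_algHom_apply (K.val.restrictScalars ℤ) x p
    have h2 : aeval x p = 0 := minpoly.aeval ℤ x
    rw [h2, map_zero] at h1
    exact h1
  · -- the field generated
    have h1 : adjoin ℚ {(x : ℂ)} = K := by
      have h2 := IntermediateField.adjoin_map ℚ ({x} : Set K) K.val
      rw [inst_irrel _ _ x hgen, ← AlgHom.fieldRange_eq_map, IntermediateField.fieldRange_val,
        Set.image_singleton] at h2
      exact h2.symm
    refine Eq.trans ?_ h1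
    apply le_antisymm
    · rw [adjoin_simple_le_iff]
      exact sub_mem (mem_adjoin_simple_self ℚ _) (intCast_mem _ m)
    · rw [adjoin_simple_le_iff]
      have h4 : ((x : ℂ) - m) ∈ adjoin ℚ {(x : ℂ) - m} := mem_adjoin_simple_self ℚ _
      have h5 := add_mem h4 (intCast_mem (adjoin ℚ {(x : ℂ) - m}) m)
      rw [sub_add_cancel] at h5
      exact h5
  · rw [hqc]
    exact Int.emod_nonneg a hn1.ne'
  · rw [hqc]
    exact Int.emod_lt_of_pos a hn1
  · apply hcb q (3 * R) hqm hqd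
    intro w hw
    rw [mem_rts hqm.ne_zero, hqev, ← mem_rts hpm.ne_zero] at hw
    have h1 := hroots _ hw
    have h2 : ‖w‖ ≤ ‖w + m‖ + ‖(m : ℂ)‖ := by
      have h3 : w = (w + m) - m := by ring
      conv_lhs => rw [h3]
      exact norm_sub_le _ _
    rw [Complex.norm_intCast] at h2
    linarith

theorem sum_exp (n : ℕ) : 2 * ∑ j ∈ Finset.range n, (n + 1 - j) = n * (n + 3) := by
  have h1 : ∑ j ∈ Finset.range n, (n + 1 - j) = ∑ j ∈ Finset.range n, (j + 2) := by
    rw [← Finset.sum_range_reflect]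
    refine Finset.sum_congr rfl fun j hj => ?_
    rw [Finset.mem_range] at hj
    omega
  rw [h1, Finset.sum_add_distrib, mul_add]
  have h2 : 2 * ∑ j ∈ Finset.range n, j + n = n * n := by
    have := Finset.sum_range_id_mul_two n
    rcases n with _ | k
    · simp
    · rw [Nat.add_sub_cancel] at this
      nlinarith
  rw [Finset.sum_const, Finset.card_range, smul_eq_mul]
  nlinarith

theorem fldg (h : S_GEN) : S_FLDG := by
  intro s hs δ hδ
  obtain ⟨n, rfl⟩ : ∃ n, s = n + 1 := ⟨s - 1, by omega⟩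
  obtain ⟨C₀, hC₀, hgen⟩ := h (n + 1) hs
  set C₁ : ℝ := max C₀ 1 with hC₁
  have hC₁1 : 1 ≤ C₁ := le_max_right _ _
  set E : ℕ := ∑ j ∈ Finset.range n, (n + 1 - j) with hE
  set A : ℝ := 3 * 2 ^ (n + 1) * 3 ^ (n + 1) with hA
  have hA0 : 0 < A := by positivity
  refine ⟨((n : ℝ) + 1) * (A ^ n * C₁ ^ E * ((n : ℝ) + 1)), by positivity, fun Y F hY hF => ?_⟩
  classical
  have hY0 : 0 < Y := by linarith
  set R : ℝ := C₁ * Y ^ (1 / ((n + 1 : ℕ) : ℝ)) with hR
  have hY1 : 1 ≤ Y ^ (1 / ((n + 1 : ℕ) : ℝ)) := Real.one_le_rpow hY (by positivity)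
  have hR1 : 1 ≤ R := by
    rw [hR]
    nlinarith
  set b : ℕ → ℝ := fun j => (3 * R) ^ (n + 1 - j) * 2 ^ (n + 1) with hb
  have hb1 : ∀ j, 1 ≤ b j := by
    intro j
    rw [hb]
    show 1 ≤ (3 * R) ^ (n + 1 - j) * 2 ^ (n + 1)
    have h1 : 1 ≤ (3 * R) ^ (n + 1 - j) := one_le_pow₀ (by linarith)
    have h2 : (1 : ℝ) ≤ 2 ^ (n + 1) := one_le_pow₀ (by norm_num)
    nlinarith
  set T : Fin (n + 1) → Finset ℤ := fun j =>
    if (j : ℕ) = n then Finset.Ico 0 ((n : ℤ) + 1) else Finset.Icc (-⌊b j⌋) ⌊b j⌋ with hT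
  set P : (Fin (n + 1) → ℤ) → ℂ[X] := fun c =>
    X ^ (n + 1) + ∑ j : Fin (n + 1), C ((c j : ℤ) : ℂ) * X ^ (j : ℕ) with hP
  have hsub : F ⊆ (Fintype.piFinset T).biUnion
      (fun c => (P c).roots.toFinset.image (fun y => adjoin ℚ {y})) := by
    intro K hKF
    obtain ⟨hNF, hrk, hdisc⟩ := hF K hKF
    obtain ⟨x, hx, hgx, hxb⟩ := hgen K hrk
    have hxb' : ∀ σ : K →+* ℂ, ‖σ x‖ ≤ R := by
      intro σ
      refine (hxb σ).trans ?_
      rw [hR]
      apply mul_le_mul (le_max_left _ _) _ (by positivity) (by positivity)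
      exact Real.rpow_le_rpow (abs_nonneg _) hdisc (by positivity)
    obtain ⟨q, y, hqm, hqd, hqy, hyK, hq0, hqn, hqb⟩ := datum hR1 K hNF hrk x hx hgx hxb'
    rw [Finset.mem_biUnion]
    have hPq : P (fun j => q.coeff j) = q.map (Int.castRingHom ℂ) := by
      conv_rhs => rw [hqm.as_sum, hqd]
      rw [hP]
      simp only [Polynomial.map_add, Polynomial.map_pow, Polynomial.map_X, Polynomial.map_sum,
        Polynomial.map_mul, Polynomial.map_C]
      rw [Finset.sum_range]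
      rfl
    refine ⟨fun j => q.coeff j, ?_, ?_⟩
    · rw [Fintype.mem_piFinset]
      intro j
      rw [hT]
      show q.coeff j ∈ if (j : ℕ) = n then Finset.Ico 0 ((n : ℤ) + 1) else Finset.Icc (-⌊b j⌋) ⌊b j⌋
      split_ifs with hj
      · rw [hj, Finset.mem_Ico]
        exact ⟨hq0, hqn⟩
      · have h1 := hqb j
        have h2 : (((n + 1).choose j : ℕ) : ℝ) ≤ 2 ^ (n + 1) := by
          exact_mod_cast Nat.choose_le_two_pow (n + 1) j
        have h3 : |(q.coeff j : ℝ)| ≤ b j :=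
          h1.trans (mul_le_mul_of_nonneg_left h2 (by positivity))
        rw [abs_le] at h3
        rw [Finset.mem_Icc]
        constructor
        · have h4 : -q.coeff j ≤ ⌊b j⌋ := by
            rw [Int.le_floor]
            push_cast
            linarith [h3.1]
          linarith
        · rw [Int.le_floor]
          exact h3.2
    · rw [Finset.mem_image]
      refine ⟨y, ?_, hyK⟩
      rw [Multiset.mem_toFinset, hPq, mem_rts hqm.ne_zero]
      exact hqy
  -- the number of the polynomials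
  have hcardP : ∀ c, ((P c).roots.toFinset.image (fun y => adjoin ℚ {y})).card ≤ n + 1 := by
    intro c
    refine Finset.card_image_le.trans ((Multiset.toFinset_card_le _).trans ((card_roots' _).trans ?_))
    rw [hP]
    refine natDegree_add_le_of_degree_le (natDegree_X_pow_le _) ?_
    refine natDegree_sum_le_of_forall_le _ _ fun j _ => (natDegree_C_mul_X_pow_le _ _).trans ?_
    omega
  have h1 : F.card ≤ (Fintype.piFinset T).card * (n + 1) := by
    refine (Finset.card_le_card hsub).trans (Finset.card_biUnion_le.trans ?_)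
    have := Finset.sum_le_sum fun c (_ : c ∈ Fintype.piFinset T) => hcardP c
    rw [Finset.sum_const, smul_eq_mul] at this
    exact this
  have h2 : ((Fintype.piFinset T).card : ℝ) ≤ A ^ n * R ^ E * ((n : ℝ) + 1) := by
    rw [Fintype.card_piFinset, Fin.prod_univ_castSucc]
    push_cast
    have e1 : ((T (Fin.last n)).card : ℝ) = (n : ℝ) + 1 := by
      rw [hT]
      show (((if ((Fin.last n : Fin (n + 1)) : ℕ) = n then Finset.Ico 0 ((n : ℤ) + 1) else
        Finset.Icc (-⌊b (Fin.last n : Fin (n + 1))⌋) ⌊b (Fin.last n : Fin (n + 1))⌋) : Finset ℤ).card : ℝ) =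
          (n : ℝ) + 1
      rw [if_pos (Fin.val_last n), Int.card_Ico, sub_zero]
      have : ((n : ℤ) + 1).toNat = n + 1 := by omega
      rw [this]
      push_cast
      ring
    have e2 : ∀ j : Fin n, ((T j.castSucc).card : ℝ) ≤ A * R ^ (n + 1 - (j : ℕ)) := by
      intro j
      rw [hT]
      show (((if ((j.castSucc : Fin (n + 1)) : ℕ) = n then Finset.Ico 0 ((n : ℤ) + 1) else
        Finset.Icc (-⌊b (j.castSucc : Fin (n + 1))⌋) ⌊b (j.castSucc : Fin (n + 1))⌋) : Finset ℤ).card : ℝ) ≤ _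
      have hj := j.2
      rw [if_neg (by rw [Fin.val_castSucc]; omega), Int.card_Icc, Fin.val_castSucc]
      have hbj := hb1 (j : ℕ)
      have hfl0 : 0 ≤ ⌊b (j : ℕ)⌋ := Int.floor_nonneg.2 (by linarith)
      have e3 : (((⌊b (j : ℕ)⌋ + 1 - -⌊b (j : ℕ)⌋).toNat : ℕ) : ℝ) = 2 * (⌊b (j : ℕ)⌋ : ℝ) + 1 := by
        have e4 : (((⌊b (j : ℕ)⌋ + 1 - -⌊b (j : ℕ)⌋).toNat : ℕ) : ℤ) = 2 * ⌊b (j : ℕ)⌋ + 1 := by
          rw [Int.toNat_of_nonneg (by omega)]
          ring
        exact_mod_cast e4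
      rw [e3]
      have e5 := Int.floor_le (b (j : ℕ))
      have e6 : b (j : ℕ) ≤ A / 3 * R ^ (n + 1 - (j : ℕ)) := by
        rw [hb]
        show (3 * R) ^ (n + 1 - (j : ℕ)) * 2 ^ (n + 1) ≤ A / 3 * R ^ (n + 1 - (j : ℕ))
        rw [mul_pow, hA]
        have e7 : (3 : ℝ) ^ (n + 1 - (j : ℕ)) ≤ 3 ^ (n + 1) :=
          pow_le_pow_right₀ (by norm_num) (Nat.sub_le _ _)
        have e8 : (0 : ℝ) < R ^ (n + 1 - (j : ℕ)) := by positivity
        calc (3 : ℝ) ^ (n + 1 - (j : ℕ)) * R ^ (n + 1 - (j : ℕ)) * 2 ^ (n + 1) ≤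
              3 ^ (n + 1) * R ^ (n + 1 - (j : ℕ)) * 2 ^ (n + 1) := by
              apply mul_le_mul_of_nonneg_right _ (by positivity)
              exact mul_le_mul_of_nonneg_right e7 e8.le
          _ = 3 * 2 ^ (n + 1) * 3 ^ (n + 1) / 3 * R ^ (n + 1 - (j : ℕ)) := by ring
      linarith
    rw [e1]
    apply mul_le_mul_of_nonneg_right _ (by positivity)
    calc ∏ j : Fin n, ((T j.castSucc).card : ℝ) ≤ ∏ j : Fin n, (A * R ^ (n + 1 - (j : ℕ))) :=
          Finset.prod_le_prod (fun j _ => Nat.cast_nonneg _) fun j _ => e2 j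
      _ = A ^ n * R ^ E := by
          rw [Finset.prod_mul_distrib, Finset.prod_const, Finset.card_univ, Fintype.card_fin,
            Finset.prod_pow_eq_pow_sum, hE, Finset.sum_range]
  have h3 : R ^ E ≤ C₁ ^ E * Y ^ (((((n + 1 : ℕ) : ℝ)) + 1) / 2 - 1 / ((n + 1 : ℕ) : ℝ) + δ) := by
    rw [hR, mul_pow]
    apply mul_le_mul_of_nonneg_left _ (by positivity)
    rw [← Real.rpow_natCast (Y ^ (1 / ((n + 1 : ℕ) : ℝ))) E, ← Real.rpow_mul hY0.le]
    apply Real.rpow_le_rpow_of_exponent_le hY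
    have e1 : (2 : ℝ) * (E : ℝ) = n * (n + 3) := by exact_mod_cast sum_exp n
    have e2 : 1 / ((n + 1 : ℕ) : ℝ) * (E : ℝ) =
        (((((n + 1 : ℕ) : ℝ)) + 1) / 2 - 1 / ((n + 1 : ℕ) : ℝ)) := by
      push_cast
      have : ((n : ℝ) + 1) ≠ 0 := by positivity
      field_simp
      linarith
    rw [e2]
    linarith
  calc (F.card : ℝ) ≤ ((Fintype.piFinset T).card : ℝ) * ((n : ℝ) + 1) := by exact_mod_cast h1
    _ ≤ (A ^ n * R ^ E * ((n : ℝ) + 1)) * ((n : ℝ) + 1) :=
        mul_le_mul_of_nonneg_right h2 (by positivity)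
    _ ≤ (A ^ n * (C₁ ^ E * Y ^ (((((n + 1 : ℕ) : ℝ)) + 1) / 2 - 1 / ((n + 1 : ℕ) : ℝ) + δ)) *
          ((n : ℝ) + 1)) * ((n : ℝ) + 1) := by
        apply mul_le_mul_of_nonneg_right _ (by positivity)
        apply mul_le_mul_of_nonneg_right _ (by positivity)
        exact mul_le_mul_of_nonneg_left h3 (by positivity)
    _ = _ := by ring

end Q137.V
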