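import Pool.Agent.Q137.V.Facts

/-! # Project V, job MEAS3: the measure of the small values of a cubic polynomial -/

set_option autoImplicit false

namespace Q137.V

open Polynomial MeasureTheory Q273.V

theorem M_nonneg (f : ℤ[X]) : 0 ≤ M f := mahlerMeasure_nonneg _

open scoped Classical in
theorem meas3 (hmin : S_MIN) (hdlow : S_DLOW) : S_MEAS3 := by
  intro n f z κ hf hκ hκM
  obtain ⟨hirr, hdeg, hz⟩ := hf
  have hd : f.natDegree ≠ 0 := by omega
  have hf0 : f ≠ 0 := hirr.ne_zero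
  set S := (f.map (Int.castRingHom ℂ)).roots.toFinset with hS
  have hcard : S.card = 3 := by
    rw [hS, Multiset.toFinset_card_of_nodup (roots_nodup hirr hd), roots_card, hdeg]
  have hmemS : ∀ w, w ∈ S → aeval w f = 0 := by
    intro w hw
    rw [hS, Multiset.mem_toFinset, mem_rts hf0] at hw
    exact hw
  have hlow : ∀ w ∈ S, 1 ≤ 2 * M f * dv f w := fun w hw => hdlow f w ⟨hirr, hdeg, hmemS w hw⟩
  have hdvn : ∀ w : ℂ, 0 ≤ dv f w := fun w => norm_nonneg _
  have hdvpos : ∀ w ∈ S, 0 < dv f w := by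
    intro w hw
    have h1 := hlow w hw
    rcases (hdvn w).lt_or_eq with h2 | h2
    · exact h2
    · rw [← h2, mul_zero] at h1
      exact absurd h1 (by norm_num)
  have hrho : ∀ w ∈ S, 4 * κ / dv f w ≤ 1 := by
    intro w hw
    rw [div_le_one (hdvpos w hw)]
    have h1 := hlow w hw
    have h2 := mul_le_mul_of_nonneg_left h1 (show (0 : ℝ) ≤ 4 * κ by positivity)
    have h3 : 4 * κ * (2 * M f * dv f w) = (8 * κ * M f) * dv f w := by ring
    rw [h3, mul_one] at h2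
    exact h2.trans ((mul_le_mul_of_nonneg_right hκM (hdvn w)).trans (by rw [one_mul]))
  -- the covering
  have hcov : {ξ : ℝ | |ξ| ≤ n ∧ |aeval ξ f| ≤ κ} ⊆
      ⋃ w ∈ S.filter (fun w => ‖w‖ ≤ n + 1), Set.Icc (w.re - 4 * κ / dv f w) (w.re + 4 * κ / dv f w) := by
    intro ξ hξ
    rw [Set.mem_ofPred_eq] at hξ
    obtain ⟨h1, h2⟩ := hξ
    have hne : S.Nonempty := by
      rw [← Finset.card_pos, hcard]
      norm_num
    obtain ⟨w, hw, hmin'⟩ := S.exists_min_image (fun w => ‖(ξ : ℂ) - w‖) hne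
    have hval : (|aeval ξ f| : ℝ) = lc f * ∏ w ∈ S, ‖(ξ : ℂ) - w‖ := by
      have e1 : ‖aeval (ξ : ℂ) f‖ = lc f * ∏ w ∈ S, ‖(ξ : ℂ) - w‖ := by
        rw [val_prod hirr hd, norm_mul, norm_prod, Complex.norm_intCast]
        rfl
      rw [← e1]
      have e2 : aeval (ξ : ℂ) f = ((aeval ξ f : ℝ) : ℂ) := by
        have := aeval_algebraMap_apply ℂ ξ f
        simpa using this
      rw [e2, Complex.norm_real, Real.norm_eq_abs]
    have hprod : (1 / 4 : ℝ) * ∏ w' ∈ S.erase w, ‖w - w'‖ ≤ ∏ w' ∈ S.erase w, ‖(ξ : ℂ) - w'‖ := by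
      have e1 : ∏ w' ∈ S.erase w, ((1 / 2 : ℝ) * ‖w - w'‖) ≤ ∏ w' ∈ S.erase w, ‖(ξ : ℂ) - w'‖ := by
        apply Finset.prod_le_prod
        · intro i _
          positivity
        · intro w' hw'
          have e2 := hmin' w' (Finset.mem_of_mem_erase hw')
          have e3 : ‖w - w'‖ ≤ ‖(ξ : ℂ) - w‖ + ‖(ξ : ℂ) - w'‖ := by
            have e4 : w - w' = ((ξ : ℂ) - w') - ((ξ : ℂ) - w) := by ring
            rw [e4]
            exact (norm_sub_le _ _).trans (by rw [add_comm])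
          linarith
      rw [Finset.prod_mul_distrib, Finset.prod_const, Finset.card_erase_of_mem hw, hcard] at e1
      norm_num at e1 ⊢
      exact e1
    have hlc : 0 ≤ lc f := abs_nonneg _
    have hmain : ‖(ξ : ℂ) - w‖ * (dv f w / 4) ≤ κ := by
      rw [hval, ← Finset.mul_prod_erase S _ hw] at h2
      rw [dv_prod hirr hd hw]
      calc ‖(ξ : ℂ) - w‖ * (lc f * (∏ w' ∈ S.erase w, ‖w - w'‖) / 4) =
            lc f * (‖(ξ : ℂ) - w‖ * ((1 / 4 : ℝ) * ∏ w' ∈ S.erase w, ‖w - w'‖)) := by ring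
        _ ≤ lc f * (‖(ξ : ℂ) - w‖ * ∏ w' ∈ S.erase w, ‖(ξ : ℂ) - w'‖) :=
            mul_le_mul_of_nonneg_left (mul_le_mul_of_nonneg_left hprod (norm_nonneg _)) hlc
        _ ≤ κ := h2
    have hdist : ‖(ξ : ℂ) - w‖ ≤ 4 * κ / dv f w := by
      rw [le_div_iff₀ (hdvpos w hw)]
      linarith
    have hre : |ξ - w.re| ≤ 4 * κ / dv f w := by
      have e1 := Complex.abs_re_le_norm ((ξ : ℂ) - w)
      rw [Complex.sub_re, Complex.ofReal_re] at e1
      exact e1.trans hdist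
    rw [Set.mem_iUnion₂]
    refine ⟨w, ?_, ?_⟩
    · rw [Finset.mem_filter]
      refine ⟨hw, ?_⟩
      have e1 : ‖w‖ ≤ ‖(ξ : ℂ)‖ + ‖(ξ : ℂ) - w‖ := by
        have e4 : w = (ξ : ℂ) - ((ξ : ℂ) - w) := by ring
        conv_lhs => rw [e4]
        exact norm_sub_le _ _
      rw [Complex.norm_real, Real.norm_eq_abs] at e1
      have := hrho w hw
      linarith
    · rw [Set.mem_Icc]
      rw [abs_le] at hre
      constructor <;> linarith [hre.1, hre.2]
  refine (measure_mono hcov).trans ((measure_biUnion_finset_le _ _).trans ?_)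
  have hvol : ∀ w ∈ S.filter (fun w => ‖w‖ ≤ n + 1),
      volume (Set.Icc (w.re - 4 * κ / dv f w) (w.re + 4 * κ / dv f w)) =
        ENNReal.ofReal (8 * κ * (1 / dv f w)) := by
    intro w _
    rw [Real.volume_Icc]
    congr 1
    ring
  rw [Finset.sum_congr rfl hvol, ← ENNReal.ofReal_sum_of_nonneg, ← Finset.mul_sum]
  intro w _
  have := hdvn w
  positivity

end Q137.V
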