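import Pool.Agent.Q137.V.Facts

/-! # Project V, job SUMA: the first moment of one cubic field -/

set_option autoImplicit false

namespace Q137.V

open Polynomial Q273.V Module

theorem irrat {K : Type} [Field K] [NumberField K] {x : K} {f : ℤ[X]} (hf : IsMin 3 f x)
    (φ : K →+* ℂ) (r t : ℤ) (h : (r : ℂ) * φ x + t = 0) : r = 0 ∧ t = 0 := by
  obtain ⟨hirr, hdeg, hx⟩ := hf
  have hd : f.natDegree ≠ 0 := by omega
  have h0 : (r : K) * x + t = 0 := by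
    apply φ.injective
    rw [map_zero, map_add, map_mul, map_intCast, map_intCast]
    exact h
  by_cases hr : r = 0
  · refine ⟨hr, ?_⟩
    rw [hr, Int.cast_zero, zero_mul, zero_add] at h0
    exact_mod_cast h0
  · exfalso
    have hrK : (r : K) ≠ 0 := by exact_mod_cast hr
    have h1 : f.IsPrimitive := hirr.isPrimitive hd
    have h2 : Irreducible (f.map (Int.castRingHom ℚ)) :=
      (IsPrimitive.Int.irreducible_iff_irreducible_map_cast h1).1 hirr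
    have h3 : x = algebraMap ℚ K (-(t : ℚ) / r) := by
      rw [map_div₀, map_neg, map_intCast, map_intCast, eq_div_iff hrK]
      linear_combination h0
    have h4 : aeval (-(t : ℚ) / r) f = 0 := by
      apply (algebraMap ℚ K).injective
      rw [map_zero, ← hx, h3]
      exact (aeval_algebraMap_apply K (-(t : ℚ) / r) f).symm
    have h5 : IsRoot (f.map (Int.castRingHom ℚ)) (-(t : ℚ) / r) := by
      rw [IsRoot.def, eval_map, ← h4, aeval_def]
      rfl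
    have h6 := degree_eq_one_of_irreducible_of_root h2 h5
    have h7 : (f.map (Int.castRingHom ℚ)).natDegree = 1 := natDegree_eq_of_degree_eq_some h6
    rw [natDegree_map_eq_of_injective (RingHom.injective_int (Int.castRingHom ℚ)), hdeg] at h7
    omega

theorem bounds {T a d₁ d₂ y₀ y₁ y₂ : ℝ} (hT : 1 ≤ T) (ha1 : 1 ≤ a) (haT : a ≤ T) (hd1 : 0 ≤ d₁)
    (hd2 : 0 ≤ d₂) (hd1T : d₁ ≤ 2 * T) (hd2T : d₂ ≤ 2 * T) (hlow : 1 ≤ 2 * T * (a * (d₁ * d₂)))
    (hy0 : 0 ≤ y₀) (hy1 : 0 ≤ y₁) (hy2 : 0 ≤ y₂) (hprod : 1 ≤ a * (y₀ * y₁ * y₂))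
    (h01 : y₀ * y₁ ≤ 8 * d₁) (h02 : y₀ * y₂ ≤ 8 * d₂) (h12 : y₁ * y₂ ≤ 8 * max d₁ d₂) :
    (1 ≤ 256 * T ^ 3 * a ∧ a ≤ 256 * T ^ 3) ∧ (1 ≤ 256 * T ^ 3 * d₁ ∧ d₁ ≤ 256 * T ^ 3) ∧
    (1 ≤ 256 * T ^ 3 * d₂ ∧ d₂ ≤ 256 * T ^ 3) ∧ (1 ≤ 256 * T ^ 3 * y₀ ∧ y₀ ≤ 256 * T ^ 3) ∧
    (1 ≤ 256 * T ^ 3 * y₁ ∧ y₁ ≤ 256 * T ^ 3) ∧ (1 ≤ 256 * T ^ 3 * y₂ ∧ y₂ ≤ 256 * T ^ 3) := by
  have hT0 : 0 < T := by linarith
  have hT2 : 1 ≤ T ^ 2 := one_le_pow₀ hT
  have hT3 : 1 ≤ T ^ 3 := one_le_pow₀ hT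
  have hTT3 : T ≤ T ^ 3 := by
    have := mul_le_mul_of_nonneg_left hT2 hT0.le
    calc T = T * 1 := by ring
      _ ≤ T * T ^ 2 := this
      _ = T ^ 3 := by ring
  have hT23 : T ^ 2 ≤ T ^ 3 := by
    have := mul_le_mul_of_nonneg_left hT (show 0 ≤ T ^ 2 by positivity)
    calc T ^ 2 = T ^ 2 * 1 := by ring
      _ ≤ T ^ 2 * T := this
      _ = T ^ 3 := by ring
  -- general step: `1 ≤ c T^k u v`, `v ≤ b` gives a lower bound for `u`
  have low1 : ∀ u v : ℝ, 0 ≤ u → v ≤ 2 * T → 1 ≤ 2 * T * (a * (u * v)) → 1 ≤ 4 * T ^ 3 * u := by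
    intro u v hu hv h
    have h1 : u * v ≤ u * (2 * T) := mul_le_mul_of_nonneg_left hv hu
    have h2 : a * (u * v) ≤ T * (u * (2 * T)) := by
      calc a * (u * v) ≤ a * (u * (2 * T)) := mul_le_mul_of_nonneg_left h1 (by linarith)
        _ ≤ T * (u * (2 * T)) := mul_le_mul_of_nonneg_right haT (by positivity)
    have h3 : 2 * T * (a * (u * v)) ≤ 2 * T * (T * (u * (2 * T))) :=
      mul_le_mul_of_nonneg_left h2 (by positivity)
    calc (1 : ℝ) ≤ 2 * T * (T * (u * (2 * T))) := h.trans h3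
      _ = 4 * T ^ 3 * u := by ring
  have hd1l := low1 d₁ d₂ hd1 hd2T hlow
  have hd2l := low1 d₂ d₁ hd2 hd1T (by rw [mul_comm d₂ d₁]; exact hlow)
  have low2 : ∀ u v : ℝ, 0 ≤ u → v ≤ 16 * T → 1 ≤ a * (u * v) → 1 ≤ 16 * T ^ 2 * u := by
    intro u v hu hv h
    have h1 : u * v ≤ u * (16 * T) := mul_le_mul_of_nonneg_left hv hu
    have h2 : a * (u * v) ≤ T * (u * (16 * T)) := by
      calc a * (u * v) ≤ a * (u * (16 * T)) := mul_le_mul_of_nonneg_left h1 (by linarith)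
        _ ≤ T * (u * (16 * T)) := mul_le_mul_of_nonneg_right haT (by positivity)
    calc (1 : ℝ) ≤ T * (u * (16 * T)) := h.trans h2
      _ = 16 * T ^ 2 * u := by ring
  have hm : max d₁ d₂ ≤ 2 * T := max_le hd1T hd2T
  have g12 : y₁ * y₂ ≤ 16 * T := by linarith
  have g01 : y₀ * y₁ ≤ 16 * T := by linarith
  have g02 : y₀ * y₂ ≤ 16 * T := by linarith
  have l0 := low2 y₀ (y₁ * y₂) hy0 g12 (by
    have : a * (y₀ * (y₁ * y₂)) = a * (y₀ * y₁ * y₂) := by ring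
    rw [this]; exact hprod)
  have l1 := low2 y₁ (y₀ * y₂) hy1 g02 (by
    have : a * (y₁ * (y₀ * y₂)) = a * (y₀ * y₁ * y₂) := by ring
    rw [this]; exact hprod)
  have l2 := low2 y₂ (y₀ * y₁) hy2 g01 (by
    have : a * (y₂ * (y₀ * y₁)) = a * (y₀ * y₁ * y₂) := by ring
    rw [this]; exact hprod)
  have upp : ∀ u v : ℝ, 0 ≤ u → u * v ≤ 16 * T → 1 ≤ 16 * T ^ 2 * v → u ≤ 256 * T ^ 3 := by
    intro u v hu huv hv
    have h1 := mul_le_mul_of_nonneg_left hv hu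
    have h2 := mul_le_mul_of_nonneg_left huv (show 0 ≤ 16 * T ^ 2 by positivity)
    calc u = u * 1 := by ring
      _ ≤ u * (16 * T ^ 2 * v) := h1
      _ = 16 * T ^ 2 * (u * v) := by ring
      _ ≤ 16 * T ^ 2 * (16 * T) := h2
      _ = 256 * T ^ 3 := by ring
  have lift16 : ∀ u : ℝ, 0 ≤ u → 1 ≤ 16 * T ^ 2 * u → 1 ≤ 256 * T ^ 3 * u := by
    intro u hu h
    have h1 : 16 * T ^ 2 ≤ 256 * T ^ 3 := by linarith
    exact h.trans (mul_le_mul_of_nonneg_right h1 hu)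
  have lift4 : ∀ u : ℝ, 0 ≤ u → 1 ≤ 4 * T ^ 3 * u → 1 ≤ 256 * T ^ 3 * u := by
    intro u hu h
    have h1 : 4 * T ^ 3 ≤ 256 * T ^ 3 := by linarith
    exact h.trans (mul_le_mul_of_nonneg_right h1 hu)
  refine ⟨⟨?_, by linarith⟩, ⟨lift4 _ hd1 hd1l, by linarith⟩, ⟨lift4 _ hd2 hd2l, by linarith⟩,
    ⟨lift16 _ hy0 l0, upp y₀ y₁ hy0 g01 l1⟩, ⟨lift16 _ hy1 l1, upp y₁ y₀ hy1 (by rw [mul_comm]; exact g01) l0⟩,
    ⟨lift16 _ hy2 l2, upp y₂ y₀ hy2 (by rw [mul_comm]; exact g02) l0⟩⟩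
  have := mul_le_mul_of_nonneg_left ha1 (show 0 ≤ 256 * T ^ 3 by positivity)
  linarith

theorem one_point (hzoom : S_ZOOM) (hmin : S_MIN) (hmob : S_MOB) (hdlow : S_DLOW)
    {K : Type} [Field K] [NumberField K] (hK : finrank ℚ K = 3) (e : Fin 3 ≃ (K →+* ℂ))
    (halt : (∀ x, (e 0 x).im = 0) ∨
      ((∀ x, e 1 x = (starRingEnd ℂ) (e 0 x)) ∧ ∀ x, (e 2 x).im = 0))
    {T : ℝ} (hT : 1 ≤ T) {x : K} {f : ℤ[X]} (hf : IsMin 3 f x) (hM : M f ≤ T) :
    ∃ p q r t : ℤ, Zm (fun i => e i x) p q r t ∧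
      (1 ≤ 256 * T ^ 3 * lc f ∧ lc f ≤ 256 * T ^ 3) ∧
      (∀ i, i ≠ 0 → 1 ≤ 256 * T ^ 3 * ‖e 0 x - e i x‖ ∧ ‖e 0 x - e i x‖ ≤ 256 * T ^ 3) ∧
      ∀ i, 1 ≤ 256 * T ^ 3 * ‖(r : ℂ) * e i x + t‖ ∧ ‖(r : ℂ) * e i x + t‖ ≤ 256 * T ^ 3 := by
  classical
  obtain ⟨-, hinj, hMf, hlc1, hdv⟩ := hmin K 3 x f (by norm_num) hK hf
  have hinj' : Function.Injective (fun i => e i x) := fun i j hij => e.injective (hinj hij)
  obtain ⟨p, q, r, t, hZ⟩ := hzoom (fun i => e i x) hinj' (fun i r t h => irrat hf (e i) r t h) (by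
    rcases halt with h | ⟨h1, h2⟩
    · exact Or.inl (h x)
    · exact Or.inr ⟨h1 x, h2 x⟩)
  refine ⟨p, q, r, t, hZ, ?_⟩
  obtain ⟨hdet, -, -, hZ1, hZ2⟩ := hZ
  -- the Mahler measure
  have hMf' : M f = lc f * ((max 1 ‖e 0 x‖) * (max 1 ‖e 1 x‖) * (max 1 ‖e 2 x‖)) := by
    rw [hMf, ← Equiv.prod_comp e (fun σ : K →+* ℂ => max 1 ‖σ x‖), Fin.prod_univ_three]
  have m0 : 1 ≤ max 1 ‖e 0 x‖ := le_max_left _ _
  have m1 : 1 ≤ max 1 ‖e 1 x‖ := le_max_left _ _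
  have m2 : 1 ≤ max 1 ‖e 2 x‖ := le_max_left _ _
  have hM' : lc f * ((max 1 ‖e 0 x‖) * (max 1 ‖e 1 x‖) * (max 1 ‖e 2 x‖)) ≤ T := by rw [← hMf']; exact hM
  set A := max 1 ‖e 0 x‖ with hA
  set B := max 1 ‖e 1 x‖ with hB
  set C := max 1 ‖e 2 x‖ with hC
  have hABC1 : 1 ≤ A * B * C := one_le_mul_of_one_le_of_one_le (one_le_mul_of_one_le_of_one_le m0 m1) m2
  have haT : lc f ≤ T := by
    have := mul_le_mul_of_nonneg_left hABC1 (show 0 ≤ lc f by linarith)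
    linarith
  have hABCT : A * B * C ≤ T := by
    have := mul_le_mul_of_nonneg_right hlc1 (show 0 ≤ A * B * C by linarith)
    linarith
  have hAT : A ≤ T := by
    have h1 : 1 ≤ B * C := one_le_mul_of_one_le_of_one_le m1 m2
    have := mul_le_mul_of_nonneg_left h1 (show 0 ≤ A by linarith)
    have h2 : A * (B * C) = A * B * C := by ring
    linarith
  have hBT : B ≤ T := by
    have h1 : 1 ≤ A * C := one_le_mul_of_one_le_of_one_le m0 m2
    have := mul_le_mul_of_nonneg_left h1 (show 0 ≤ B by linarith)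
    have h2 : B * (A * C) = A * B * C := by ring
    linarith
  have hCT : C ≤ T := by
    have h1 : 1 ≤ A * B := one_le_mul_of_one_le_of_one_le m0 m1
    have := mul_le_mul_of_nonneg_left h1 (show 0 ≤ C by linarith)
    have h2 : C * (A * B) = A * B * C := by ring
    linarith
  have n0 : ‖e 0 x‖ ≤ T := (le_max_right _ _).trans hAT
  have n1 : ‖e 1 x‖ ≤ T := (le_max_right _ _).trans hBT
  have n2 : ‖e 2 x‖ ≤ T := (le_max_right _ _).trans hCT
  have hd1T : ‖e 0 x - e 1 x‖ ≤ 2 * T := (norm_sub_le _ _).trans (by linarith)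
  have hd2T : ‖e 0 x - e 2 x‖ ≤ 2 * T := (norm_sub_le _ _).trans (by linarith)
  -- the derivative
  have hroot : IsMin 3 f (e 0 x) := by
    refine ⟨hf.1, hf.2.1, ?_⟩
    have h1 : e 0 (aeval x f) = 0 := by
      rw [hf.2.2]
      exact (e 0).map_zero
    rw [← h1]
    exact aeval_algHom_apply ((e 0).toIntAlgHom) x f
  have hdv0 : dv f (e 0 x) = lc f * (‖e 0 x - e 1 x‖ * ‖e 0 x - e 2 x‖) := by
    rw [hdv (e 0), Finset.prod_filter,
      ← Equiv.prod_comp e (fun τ : K →+* ℂ => if τ ≠ e 0 then ‖e 0 x - τ x‖ else 1), Fin.prod_univ_three,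
      if_neg (by simp), if_pos (e.injective.ne (by decide)), if_pos (e.injective.ne (by decide)), one_mul]
  have hlow : 1 ≤ 2 * T * (lc f * (‖e 0 x - e 1 x‖ * ‖e 0 x - e 2 x‖)) := by
    have h1 := hdlow f (e 0 x) hroot
    rw [hdv0] at h1
    have h2 : 0 ≤ lc f * (‖e 0 x - e 1 x‖ * ‖e 0 x - e 2 x‖) := by
      have : 0 ≤ lc f := by linarith
      positivity
    have h3 := mul_le_mul_of_nonneg_right (show 2 * M f ≤ 2 * T by linarith) h2
    linarith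
  -- the image
  obtain ⟨hne, g, hg, hlg⟩ := hmob K 3 x f p q r t (by norm_num) hK hf hdet
  obtain ⟨-, -, -, hlg1, -⟩ := hmin K 3 _ g (by norm_num) hK hg
  rw [hlg, ← Equiv.prod_comp e (fun σ : K →+* ℂ => ‖(r : ℂ) * σ x + t‖), Fin.prod_univ_three] at hlg1
  have h01 := hZ1 1 (by decide)
  have h02 := hZ1 2 (by decide)
  have hb := bounds hT hlc1 haT (norm_nonneg _) (norm_nonneg _) hd1T hd2T hlow (norm_nonneg _)
    (norm_nonneg _) (norm_nonneg _) hlg1 h01 h02 hZ2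
  obtain ⟨b1, b2, b3, b4, b5, b6⟩ := hb
  refine ⟨b1, fun i hi => ?_, fun i => ?_⟩
  · fin_cases i
    · exact absurd rfl hi
    · exact b2
    · exact b3
  · fin_cases i
    · exact b4
    · exact b5
    · exact b6

theorem log_bd {V y : ℝ} (hV : 1 ≤ V) (h1 : 1 ≤ V * y) (h2 : y ≤ V) {B : ℤ}
    (hB : Real.log V / Real.log 2 + 1 ≤ B) : Int.log 2 y ∈ Finset.Icc (-B) B := by
  have hV0 : 0 < V := by linarith
  have hy : 0 < y := by
    by_contra h
    push Not at h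
    have := mul_nonpos_of_nonneg_of_nonpos hV0.le h
    linarith
  have hl2 : 0 < Real.log 2 := Real.log_pos (by norm_num)
  rw [Finset.mem_Icc]
  constructor
  · have h3 := Int.lt_zpow_succ_log_self (R := ℝ) (b := 2) (by norm_num) y
    have h4 : V⁻¹ ≤ y := by
      rw [inv_le_iff_one_le_mul₀ hV0]
      linarith
    have h5 := Real.log_lt_log (inv_pos.2 hV0) (lt_of_le_of_lt h4 h3)
    rw [Real.log_inv, Real.log_zpow] at h5
    push_cast at h5
    have h6 : -(Real.log V / Real.log 2) < (Int.log 2 y : ℝ) + 1 := by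
      rw [← neg_div, div_lt_iff₀ hl2]
      exact h5
    have h7 : (-B : ℝ) < Int.log 2 y := by linarith
    have h8 : -B < Int.log 2 y := by exact_mod_cast h7
    exact h8.le
  · have h3 := Int.zpow_log_le_self (R := ℝ) (b := 2) (by norm_num) hy
    have h4 : (0 : ℝ) < ((2 : ℕ) : ℝ) ^ Int.log 2 y := by positivity
    have h5 := Real.log_le_log h4 (h3.trans h2)
    rw [Real.log_zpow] at h5
    push_cast at h5
    have h6 : (Int.log 2 y : ℝ) ≤ Real.log V / Real.log 2 := by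
      rw [le_div_iff₀ hl2]
      exact h5
    have h7 : (Int.log 2 y : ℝ) ≤ B := by linarith
    exact_mod_cast h7

theorem two_log {y : ℝ} (hy : 0 < y) : (2 : ℝ) ^ Int.log 2 y ≤ y ∧ y ≤ 2 * 2 ^ Int.log 2 y := by
  have h1 := Int.zpow_log_le_self (R := ℝ) (b := 2) (by norm_num) hy
  have h2 := Int.lt_zpow_succ_log_self (R := ℝ) (b := 2) (by norm_num) y
  push_cast at h1 h2
  refine ⟨h1, ?_⟩
  rw [zpow_add₀ (by norm_num), zpow_one] at h2
  linarith

theorem suma (hcell : S_CELLA) (hzoom : S_ZOOM) (henum : S_ENUM) (hmin : S_MIN) (hmob : S_MOB)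
    (hdlow : S_DLOW) : S_SUMA := by
  intro n ε hε
  obtain ⟨C, hC, hcell⟩ := hcell n
  have hl2 : 0 < Real.log 2 := Real.log_pos (by norm_num)
  set C₃ : ℝ := 23 + 42 / (ε * Real.log 2) with hC₃
  have hC₃0 : 0 < C₃ := by positivity
  refine ⟨C₃ ^ 7 * C, by positivity, fun K _ _ hK σ T F f hT hF => ?_⟩
  classical
  have hT0 : 0 < T := by linarith
  obtain ⟨e, he0, halt⟩ := henum K hK σ
  have halt' : (∀ x, (e 0 x).im = 0) ∨
      ((∀ x, e 1 x = (starRingEnd ℂ) (e 0 x)) ∧ ∀ x, (e 2 x).im = 0) := by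
    rw [he0]
    exact halt
  have hkey : ∀ x : K, ∃ p q r t : ℤ, x ∈ F → Zm (fun i => e i x) p q r t ∧
      (1 ≤ 256 * T ^ 3 * lc (f x) ∧ lc (f x) ≤ 256 * T ^ 3) ∧
      (∀ i, i ≠ 0 → 1 ≤ 256 * T ^ 3 * ‖e 0 x - e i x‖ ∧ ‖e 0 x - e i x‖ ≤ 256 * T ^ 3) ∧
      ∀ i, 1 ≤ 256 * T ^ 3 * ‖(r : ℂ) * e i x + t‖ ∧ ‖(r : ℂ) * e i x + t‖ ≤ 256 * T ^ 3 := by
    intro x
    by_cases hx : x ∈ F
    · obtain ⟨p, q, r, t, h⟩ := one_point hzoom hmin hmob hdlow hK e halt' hT (hF x hx).1 (hF x hx).2.1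
      exact ⟨p, q, r, t, fun _ => h⟩
    · exact ⟨0, 0, 0, 0, fun h => absurd h hx⟩
  choose p q r t hpq using hkey
  set V : ℝ := 256 * T ^ 3 with hV
  have hV1 : 1 ≤ V := by
    have : 1 ≤ T ^ 3 := one_le_pow₀ hT
    rw [hV]
    linarith
  set B : ℤ := ⌈Real.log V / Real.log 2 + 1⌉ with hB
  have hB1 : Real.log V / Real.log 2 + 1 ≤ B := Int.le_ceil _
  have hB2 : (B : ℝ) < Real.log V / Real.log 2 + 1 + 1 := Int.ceil_lt_add_one _
  set key : K → ℤ × (Fin 3 → ℤ) × (Fin 3 → ℤ) := fun x =>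
    (Int.log 2 (lc (f x)), (fun i => Int.log 2 ‖e 0 x - e i x‖),
      fun i => Int.log 2 ‖(r x : ℂ) * e i x + t x‖) with hkeydef
  set Box : Finset (ℤ × (Fin 3 → ℤ) × (Fin 3 → ℤ)) :=
    (Finset.Icc (-B) B) ×ˢ ((Fintype.piFinset fun _ => Finset.Icc (-B) B) ×ˢ
      (Fintype.piFinset fun _ => Finset.Icc (-B) B)) with hBox
  have hB0 : (0 : ℝ) ≤ B := by
    have h1 : 0 ≤ Real.log V / Real.log 2 := div_nonneg (Real.log_nonneg hV1) hl2.le
    linarith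
  have hBz : 0 ≤ B := by exact_mod_cast hB0
  have hmaps : ∀ x ∈ F, key x ∈ Box := by
    intro x hx
    obtain ⟨-, hb1, hb2, hb3⟩ := hpq x hx
    rw [hBox, Finset.mem_product, Finset.mem_product, Fintype.mem_piFinset, Fintype.mem_piFinset]
    refine ⟨log_bd hV1 hb1.1 hb1.2 hB1, fun i => ?_, fun i => log_bd hV1 (hb3 i).1 (hb3 i).2 hB1⟩
    by_cases hi : i = 0
    · rw [hi]
      show Int.log 2 ‖e 0 x - e 0 x‖ ∈ Finset.Icc (-B) B
      rw [sub_self, norm_zero, Int.log_of_right_le_zero _ le_rfl, Finset.mem_Icc]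
      constructor <;> linarith
    · exact log_bd hV1 (hb2 i hi).1 (hb2 i hi).2 hB1
  have hpos : ∀ y : ℝ, 1 ≤ V * y → 0 < y := by
    intro y h
    by_contra h'
    push Not at h'
    have := mul_nonpos_of_nonneg_of_nonpos (show 0 ≤ V by linarith) h'
    linarith
  have hfib : ∀ κ ∈ Box, ∑ x ∈ F with key x = κ, 1 / dv (f x) (σ x) ≤ C * T := by
    intro κ _
    have h1 := hcell K hK e halt' (F.filter fun x => key x = κ) f p q r t T (2 ^ κ.1)
      (fun i => 2 ^ (κ.2.1 i)) (fun i => 2 ^ (κ.2.2 i)) hT (by positivity) (fun i => by positivity)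
      (fun i => by positivity) (fun x hx => by
        rw [Finset.mem_filter] at hx
        obtain ⟨hxF, hxk⟩ := hx
        obtain ⟨hZ, hb1, hb2, hb3⟩ := hpq x hxF
        have hk1 : Int.log 2 (lc (f x)) = κ.1 := by rw [← hxk]
        have hk2 : ∀ i, Int.log 2 ‖e 0 x - e i x‖ = κ.2.1 i := by intro i; rw [← hxk]
        have hk3 : ∀ i, Int.log 2 ‖(r x : ℂ) * e i x + t x‖ = κ.2.2 i := by intro i; rw [← hxk]
        have g1 := two_log (hpos _ hb1.1)
        rw [hk1] at g1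
        refine ⟨(hF x hxF).1, (hF x hxF).2.1, ?_, g1.1, g1.2, fun i hi => ?_, hZ, fun i => ?_⟩
        · rw [he0]
          exact (hF x hxF).2.2
        · have g2 := two_log (hpos _ (hb2 i hi).1)
          rw [hk2] at g2
          exact g2
        · have g3 := two_log (hpos _ (hb3 i).1)
          rw [hk3] at g3
          exact g3)
    rw [he0] at h1
    exact h1
  rw [← Finset.sum_fiberwise_of_maps_to hmaps]
  refine (Finset.sum_le_sum hfib).trans ?_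
  rw [Finset.sum_const, nsmul_eq_mul]
  have hcard : (Box.card : ℝ) = (2 * (B : ℝ) + 1) ^ 7 := by
    rw [hBox, Finset.card_product, Finset.card_product, Fintype.card_piFinset, Finset.prod_const,
      Finset.card_univ, Fintype.card_fin, Int.card_Icc]
    have e1 : (B + 1 - -B).toNat = (2 * B + 1).toNat := by congr 1; ring
    have e2 : (((B + 1 - -B).toNat : ℕ) : ℝ) = 2 * (B : ℝ) + 1 := by
      have e3 : (((B + 1 - -B).toNat : ℕ) : ℤ) = 2 * B + 1 := by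
        rw [Int.toNat_of_nonneg (by omega)]
        ring
      exact_mod_cast e3
    push_cast
    rw [e2]
    ring
  rw [hcard]
  -- the number of the keys
  have hTε : 1 ≤ T ^ (ε / 7) := Real.one_le_rpow hT (by positivity)
  have hlog : Real.log T ≤ T ^ (ε / 7) / (ε / 7) := Real.log_le_rpow_div hT0.le (by positivity)
  have hlogV : Real.log V = 8 * Real.log 2 + 3 * Real.log T := by
    rw [hV, Real.log_mul (by norm_num) (by positivity), Real.log_pow]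
    have : (256 : ℝ) = 2 ^ 8 := by norm_num
    rw [this, Real.log_pow]
    push_cast
    ring
  have hnum : 2 * (B : ℝ) + 1 ≤ C₃ * T ^ (ε / 7) := by
    have e1 : Real.log V / Real.log 2 = 8 + 3 * Real.log T / Real.log 2 := by
      rw [hlogV]
      field_simp
    have e2 : 3 * Real.log T / Real.log 2 ≤ 21 / (ε * Real.log 2) * T ^ (ε / 7) := by
      have e3 : 3 * Real.log T / Real.log 2 ≤ 3 * (T ^ (ε / 7) / (ε / 7)) / Real.log 2 :=
        div_le_div_of_nonneg_right (by linarith) hl2.le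
      refine e3.trans (le_of_eq ?_)
      field_simp
      norm_num
    have e4 : C₃ * T ^ (ε / 7) = 23 * T ^ (ε / 7) + 2 * (21 / (ε * Real.log 2) * T ^ (ε / 7)) := by
      rw [hC₃]
      ring
    rw [e4]
    rw [e1] at hB2
    linarith
  have hpow : (2 * (B : ℝ) + 1) ^ 7 ≤ C₃ ^ 7 * T ^ ε := by
    have e1 := pow_le_pow_left₀ (show 0 ≤ 2 * (B : ℝ) + 1 by linarith) hnum 7
    rw [mul_pow] at e1
    have e2 : (T ^ (ε / 7)) ^ 7 = T ^ ε := by
      rw [← Real.rpow_natCast, ← Real.rpow_mul hT0.le]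
      congr 1
      push_cast
      ring
    rwa [e2] at e1
  calc (2 * (B : ℝ) + 1) ^ 7 * (C * T) ≤ (C₃ ^ 7 * T ^ ε) * (C * T) :=
        mul_le_mul_of_nonneg_right hpow (by positivity)
    _ = C₃ ^ 7 * C * T ^ (1 + ε) := by
        rw [Real.rpow_add hT0, Real.rpow_one]
        ring

end Q137.V
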